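import Pool.Agent.K1H2.BI.Stm

/-!
# Branching internal DLA on `Z^3`: few launches in a given number of events
-/

namespace Pool.Agent.K1H6.BI

open MeasureTheory ProbabilityTheory Filter Pool.Agent.K1H2.BI
open scoped ENNReal Topology BigOperators

universe u

theorem S_X0 (ins : ℕ → Inst) : S (X ins 0) = 0 := by
  simp [S, X]

theorem phi_zero {b : ℝ} (hb : 0 ≤ b) : phi b 0 = 0 := by
  simp [phi, nsq, hb]

theorem phi_nonneg {b : ℝ} (hb : 0 ≤ b) (x : Site) : 0 ≤ phi b x :=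
  le_min (Finset.sum_nonneg fun _ _ => sq_nonneg _) hb

theorem Y_X0 {b : ℝ} (hb : 0 ≤ b) (ins : ℕ → Inst) : Y b (X ins 0) = 0 := by
  simp [Y, X, phi_zero hb]

theorem phi_eq {b : ℝ} {x : Site} (h : Real.sqrt b ≤ len x) : phi b x = b := by
  unfold phi
  refine min_eq_right ?_
  unfold len at h
  exact (Real.sqrt_le_sqrt_iff (Finset.sum_nonneg fun i _ => sq_nonneg _)).1 h

/-- the stopped process at a launch -/
theorem frz_launch (hF : S_FRZ) (hT : S_TRAJ) (ins : ℕ → Inst) (m N : ℕ) (hm : 2 ≤ m)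
    (h : m ≤ (X ins N).t) :
    ∃ j ≤ N, frz {s | m ≤ s.t} ins 0 N = (X ins j, j) ∧ (X ins j).t = m ∧
      (X ins j).L = [0] := by
  obtain ⟨j, hjN, h1, h2, h3⟩ := hF {s | m ≤ s.t} ins 0 N
  simp only [zero_add, Set.mem_ofPred_eq] at h1 h2 h3
  obtain ⟨-, -, -, -, h5⟩ := hT ins
  have hmj : m ≤ (X ins j).t := by
    rcases hjN.lt_or_eq with h' | h'
    · exact h2 h'
    · rw [h']; exact h
  obtain ⟨a1, a2, a3, -, -⟩ := h5 m j (by omega) hmj
  have hTj : T ins m = j := by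
    by_contra hne
    exact h3 (T ins m) (lt_of_le_of_ne a1 hne) a2.ge
  rw [hTj] at a2 a3
  exact ⟨j, hjN, h1, a2, a3⟩

/-- a set of at least `m / 2` sites has large total truncated squared norm -/
theorem dich (hL : S_LAT) {A : Finset Site} {m j : ℕ} {u b : ℝ} (hu : 8 ≤ u)
    (hm : (m : ℝ) = u ^ 3) (hb : b = (u / 8) ^ 2) (hj : (j : ℝ) ≤ m * b / 8)
    (hS : ¬ (m : ℝ) / 2 ≤ |(A.card : ℝ) - m|) :
    (m : ℝ) * b / 8 ≤ (∑ x ∈ A, phi b x) - j := by
  classical
  have hb0 : 0 ≤ b := by rw [hb]; positivity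
  have hsb : Real.sqrt b = u / 8 := by rw [hb]; exact Real.sqrt_sq (by linarith)
  have hcard : (m : ℝ) / 2 < A.card := by
    have h1 := (abs_lt.1 (not_le.1 hS)).1
    linarith
  -- the sites near the origin
  have hA1 : ((A.filter fun z => len z < Real.sqrt b).card : ℝ) ≤ m / 4 := by
    have h1 := hL.2 (A.filter fun z => len z < Real.sqrt b) (Real.sqrt b) (Real.sqrt_nonneg b)
      (fun z hz => (Finset.mem_filter.1 hz).2)
    refine h1.trans ?_
    rw [hsb, hm]
    have h2 : (u / 8 + 1) ^ 3 ≤ (u / 4) ^ 3 := by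
      apply pow_le_pow_left₀ (by linarith)
      linarith
    have h3 : 4 / 3 * Real.pi ≤ 16 := by
      have := Real.pi_le_four
      linarith
    have h4 : 0 ≤ (u / 8 + 1) ^ 3 := by positivity
    calc 4 / 3 * Real.pi * (u / 8 + 1) ^ 3 ≤ 16 * (u / 8 + 1) ^ 3 := by
            exact mul_le_mul_of_nonneg_right h3 h4
      _ ≤ 16 * (u / 4) ^ 3 := by linarith
      _ = u ^ 3 / 4 := by ring
  have hsplit : (A.filter fun z => len z < Real.sqrt b).card +
      (A.filter fun z => ¬ len z < Real.sqrt b).card = A.card :=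
    Finset.card_filter_add_card_filter_not _
  have hA2 : (m : ℝ) / 4 ≤ (A.filter fun z => ¬ len z < Real.sqrt b).card := by
    have h1 : ((A.filter fun z => len z < Real.sqrt b).card : ℝ) +
      (A.filter fun z => ¬ len z < Real.sqrt b).card = A.card := by exact_mod_cast hsplit
    linarith
  have hsum : (m : ℝ) / 4 * b ≤ ∑ x ∈ A, phi b x := by
    calc (m : ℝ) / 4 * b ≤ ((A.filter fun z => ¬ len z < Real.sqrt b).card : ℝ) * b :=
            mul_le_mul_of_nonneg_right hA2 hb0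
      _ = ∑ x ∈ A.filter (fun z => ¬ len z < Real.sqrt b), phi b x := by
            rw [Finset.sum_congr rfl (g := fun _ => b)
              (fun x hx => phi_eq (not_lt.1 (Finset.mem_filter.1 hx).2))]
            rw [Finset.sum_const, nsmul_eq_mul]
      _ ≤ ∑ x ∈ A, phi b x :=
            Finset.sum_le_sum_of_subset_of_nonneg (Finset.filter_subset _ _)
              (fun x _ _ => phi_nonneg hb0 x)
  have hmb : (m : ℝ) / 4 * b = 2 * (m * b / 8) := by ring
  linarith

/-- Markov's inequality, in the form used here -/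
theorem markov {Ω : Type u} [MeasurableSpace Ω] (P : Measure Ω) [IsProbabilityMeasure P]
    (f : Ω → ℝ≥0∞) (hf : Measurable f) (a B : ℝ) (ha : 0 < a) (hB : 0 ≤ B)
    (h : ∫⁻ ω, f ω ∂P ≤ ENNReal.ofReal B) :
    P.real {ω | ENNReal.ofReal a ≤ f ω} ≤ B / a := by
  have h1 := meas_ge_le_lintegral_div (μ := P) hf.aemeasurable (ε := ENNReal.ofReal a)
    (by simpa using ha) ENNReal.ofReal_ne_top
  have h2 : P {ω | ENNReal.ofReal a ≤ f ω} ≤ ENNReal.ofReal (B / a) := by
    refine h1.trans ?_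
    rw [ENNReal.ofReal_div_of_pos ha]
    gcongr
  exact ENNReal.toReal_le_of_le_ofReal (by positivity) h2

theorem t_TIME (hMe : S_MEAS.{u}) (hO : S_ONE) (hLy : S_LYA.{u}) (hF : S_FRZ) (hT : S_TRAJ)
    (hL : S_LAT) : S_TIME.{u} := by
  intro ν hν
  obtain ⟨hO1, ⟨C₀, hC₀, hO2⟩, -⟩ := hO ν hν
  have hvar : 0 ≤ var ν := tsum_nonneg fun k => mul_nonneg ENNReal.toReal_nonneg (sq_nonneg _)
  refine ⟨1 / 512, (4 * var ν + 64 * C₀) / 512 + 8, by norm_num, by positivity, ?_⟩
  intro Ω _ P _ ins hD m hm1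
  obtain ⟨-, -, hMe⟩ := hMe
  obtain ⟨-, hMle, -, hMf⟩ := hMe Ω P ν ins hD
  have hm0 : (0 : ℝ) < m := by exact_mod_cast hm1
  -- small `m`
  set u : ℝ := (m : ℝ) ^ (1 / 3 : ℝ) with hu
  have hu0 : 0 < u := Real.rpow_pos_of_pos hm0 _
  have hminv : (m : ℝ) ^ (-(1 / 3) : ℝ) = u⁻¹ := by rw [Real.rpow_neg hm0.le]
  have hu3 : (m : ℝ) = u ^ 3 := by
    rw [hu, ← Real.rpow_natCast, ← Real.rpow_mul hm0.le]; norm_num
  have hu5 : (m : ℝ) ^ (5 / 3 : ℝ) = u ^ 5 := by
    rw [hu, ← Real.rpow_natCast, ← Real.rpow_mul hm0.le]; norm_num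
  rw [hminv, hu5]
  by_cases hu8 : u < 8
  · have h1 : (1 : ℝ) ≤ 8 * u⁻¹ := by
      rw [← div_eq_mul_inv, le_div_iff₀ hu0]; linarith
    have h2 : 0 ≤ (4 * var ν + 64 * C₀) / 512 * u⁻¹ := by positivity
    calc _ ≤ (1 : ℝ) := measureReal_le_one
      _ ≤ _ := by rw [add_mul]; linarith
  · push Not at hu8
    set b : ℝ := (u / 8) ^ 2 with hb
    have hb1 : 1 ≤ b := by
      rw [hb]
      have : (1 : ℝ) ≤ u / 8 := by linarith
      nlinarith
    have hb0 : 0 ≤ b := by linarith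
    set N : ℕ := ⌊1 / 512 * u ^ 5⌋₊ with hN
    have hNle : (N : ℝ) ≤ 1 / 512 * u ^ 5 := Nat.floor_le (by positivity)
    have hNb : (N : ℝ) ≤ m * b / 8 := by
      refine hNle.trans (le_of_eq ?_)
      rw [hu3, hb]; ring
    have hm2 : 2 ≤ m := by
      have : (8 : ℝ) ^ 3 ≤ m := by rw [hu3]; exact pow_le_pow_left₀ (by norm_num) hu8 3
      have h2 : (2 : ℝ) ≤ m := by linarith [this]
      exact_mod_cast h2
    -- the two functionals
    have hfm : Measurable fun ω => frz {s | m ≤ s.t} (at' ins ω) 0 N :=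
      (hMf {s | m ≤ s.t} 0 N).mono (hMle _) le_rfl
    have hE1 : ∫⁻ ω, ENNReal.ofReal ((S (frz {s | m ≤ s.t} (at' ins ω) 0 N).1) ^ 2) ∂P
        ≤ ENNReal.ofReal (N * var ν) := by
      have h := hLy Ω P ν ins hD {s | m ≤ s.t} 0 Set.univ MeasurableSet.univ
        (fun _ p => ENNReal.ofReal ((S p.1) ^ 2)) (ENNReal.ofReal (var ν))
        (fun _ s _ hs _ => by simpa using hO1 s 0 hs) N
      simp only [Measure.restrict_univ, S_X0] at h
      refine h.trans (le_of_eq ?_)
      rw [ENNReal.ofReal_mul (p := (N : ℝ)) (by positivity)]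
      simp
    have hE2 : ∫⁻ ω, ENNReal.ofReal ((max (Y b (frz {s | m ≤ s.t} (at' ins ω) 0 N).1 -
        ((frz {s | m ≤ s.t} (at' ins ω) 0 N).2 : ℝ)) 0) ^ 2) ∂P
        ≤ ENNReal.ofReal (N * (C₀ * b ^ 2)) := by
      have h := hLy Ω P ν ins hD {s | m ≤ s.t} 0 Set.univ MeasurableSet.univ
        (fun _ p => ENNReal.ofReal ((max (Y b p.1 - (p.2 : ℝ)) 0) ^ 2))
        (ENNReal.ofReal (C₀ * b ^ 2))
        (fun _ s k hs _ => hO2 s b k hs hb1) N
      simp only [Measure.restrict_univ, Y_X0 hb0] at h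
      refine h.trans (le_of_eq ?_)
      rw [ENNReal.ofReal_mul (p := (N : ℝ)) (by positivity)]
      simp
    have hP1 := markov P (fun ω => ENNReal.ofReal ((S (frz {s | m ≤ s.t} (at' ins ω) 0 N).1) ^ 2))
      (by
        have h1 : Measurable fun p : State × ℕ => S p.1 :=
          (measurable_from_top (f := S)).comp measurable_fst
        exact ((h1.comp hfm).pow_const 2).ennreal_ofReal)
      (((m : ℝ) / 2) ^ 2) (N * var ν) (by positivity) (by positivity) hE1
    have hP2 := markov P (fun ω => ENNReal.ofReal ((max (Y b (frz {s | m ≤ s.t} (at' ins ω) 0 N).1 -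
        ((frz {s | m ≤ s.t} (at' ins ω) 0 N).2 : ℝ)) 0) ^ 2))
      (by
        have h1 : Measurable fun p : State × ℕ => Y b p.1 :=
          (measurable_from_top (f := Y b)).comp measurable_fst
        have h2 : Measurable fun p : State × ℕ => ((p.2 : ℕ) : ℝ) :=
          (measurable_from_top (f := fun k : ℕ => (k : ℝ))).comp measurable_snd
        exact ((((h1.comp hfm).sub (h2.comp hfm)).max measurable_const).pow_const 2).ennreal_ofReal)
      (((m : ℝ) * b / 8) ^ 2) (N * (C₀ * b ^ 2)) (by positivity) (by positivity) hE2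
    -- inclusion
    have hsub : {ω | m ≤ (X (at' ins ω) N).t} ⊆
        {ω | ENNReal.ofReal (((m : ℝ) / 2) ^ 2) ≤
          ENNReal.ofReal ((S (frz {s | m ≤ s.t} (at' ins ω) 0 N).1) ^ 2)} ∪
        {ω | ENNReal.ofReal (((m : ℝ) * b / 8) ^ 2) ≤
          ENNReal.ofReal ((max (Y b (frz {s | m ≤ s.t} (at' ins ω) 0 N).1 -
            ((frz {s | m ≤ s.t} (at' ins ω) 0 N).2 : ℝ)) 0) ^ 2)} := by
      intro ω hω
      obtain ⟨j, hjN, h1, h2, h3⟩ := frz_launch hF hT (at' ins ω) m N hm2 hω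
      have hSj : S (X (at' ins ω) j) = ((X (at' ins ω) j).A.card : ℝ) - m := by
        simp only [S, h2, h3, List.length_singleton]
        push_cast
        ring
      have hYj : Y b (X (at' ins ω) j) = ∑ x ∈ (X (at' ins ω) j).A, phi b x := by
        simp only [Y, h3, List.map_cons, List.map_nil, List.sum_cons, List.sum_nil, phi_zero hb0]
        ring
      by_cases hc : (m : ℝ) / 2 ≤ |((X (at' ins ω) j).A.card : ℝ) - m|
      · left
        simp only [Set.mem_ofPred_eq, h1, hSj]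
        apply ENNReal.ofReal_le_ofReal
        rw [← sq_abs (((X (at' ins ω) j).A.card : ℝ) - m)]
        exact pow_le_pow_left₀ (by positivity) hc 2
      · right
        have hjb : (j : ℝ) ≤ m * b / 8 := by
          have : (j : ℝ) ≤ N := by exact_mod_cast hjN
          linarith
        have hd := dich hL hu8 hu3 hb hjb hc
        simp only [Set.mem_ofPred_eq, h1, hYj]
        apply ENNReal.ofReal_le_ofReal
        exact pow_le_pow_left₀ (by positivity) (hd.trans (le_max_left _ _)) 2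
    have hle : P.real {ω | m ≤ (X (at' ins ω) N).t} ≤
        N * var ν / ((m : ℝ) / 2) ^ 2 + N * (C₀ * b ^ 2) / ((m : ℝ) * b / 8) ^ 2 :=
      (measureReal_mono hsub).trans ((measureReal_union_le _ _).trans (add_le_add hP1 hP2))
    refine hle.trans ?_
    have hbpos : 0 < b := by linarith
    have e1 : N * var ν / ((m : ℝ) / 2) ^ 2 + N * (C₀ * b ^ 2) / ((m : ℝ) * b / 8) ^ 2 =
        N * (4 * var ν + 64 * C₀) / (m : ℝ) ^ 2 := by
      field_simp
      ring
    rw [e1]
    have e2 : N * (4 * var ν + 64 * C₀) / (m : ℝ) ^ 2 ≤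
        (1 / 512 * u ^ 5) * (4 * var ν + 64 * C₀) / (m : ℝ) ^ 2 := by
      gcongr
    refine e2.trans ?_
    have e3 : (1 / 512 * u ^ 5) * (4 * var ν + 64 * C₀) / (m : ℝ) ^ 2 =
        (4 * var ν + 64 * C₀) / 512 * u⁻¹ := by
      rw [hu3]
      field_simp
    rw [e3, add_mul]
    have : 0 ≤ 8 * u⁻¹ := by positivity
    linarith

end Pool.Agent.K1H6.BI
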